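import Pool.Agent.X297.TR.Defs
import Pool.Agent.X297.UB.Geo
import Pool.Agent.Y133.Half.TateSys
import Pool.Agent.W216.MF.Pole

/-!
# Absolute eigenvalues
-/

open CategoryTheory AlgebraicGeometry Polynomial

universe u v

namespace Pool.Agent.X297.TR

open Pool.Agent.H914 Pool.Agent.W534 Pool.Agent.H914.VarClass Pool.Agent.H914.VarClass.Obj
  Pool.Agent.H914.WeilCohomology Pool.Agent.H281R3.HT Pool.Agent.W536.RR Pool.Agent.W458.MF
open Pool.Agent.Y133.Half (TC TC.of TC.ind)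

variable {k : Type u} [Field k] {𝒱 : VarClass k} {ops : CycleOps 𝒱}
  {W : WeilCohomology.{u, v} ops} {X Y Z : 𝒱.Obj} {p : ℕ} {Φ : FrobSystem W p}

/-- The class `x` is a generalised eigenvector with absolute eigenvalue `r`. -/
def E (Φ : FrobSystem W p) (Z : 𝒱.Obj) (r : W.K) (x : W.H Z) : Prop :=
  ∃ s, 0 < s ∧ x ∈ (frob Φ Z s).maxGenEigenspace (r ^ (Φ.e Z * s))

lemma gen_level {s : ℕ} {r : W.K} {x : W.H Z}
    (h : x ∈ (frob Φ Z s).maxGenEigenspace (r ^ (Φ.e Z * s))) (t : ℕ) :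
    x ∈ (frob Φ Z (s * t)).maxGenEigenspace (r ^ (Φ.e Z * (s * t))) := by
  rw [frob_mul_eq, ← mul_assoc, pow_mul r]
  exact W534.gen_mono _ _ t h

lemma gen_level' {s : ℕ} {r : W.K} {x : W.H Z}
    (h : x ∈ (frob Φ Z s).maxGenEigenspace (r ^ (Φ.e Z * s))) (t : ℕ) :
    x ∈ (frob Φ Z (t * s)).maxGenEigenspace (r ^ (Φ.e Z * (t * s))) := by
  rw [mul_comm t s]
  exact gen_level h t

lemma E.level {r : W.K} {x : W.H Z} (h : E Φ Z r x) : ∃ s, 0 < s ∧ ∀ t,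
    x ∈ (frob Φ Z (s * t)).maxGenEigenspace (r ^ (Φ.e Z * (s * t))) := by
  obtain ⟨s, hs, h⟩ := h
  exact ⟨s, hs, gen_level h⟩

lemma E.smul {r : W.K} {x : W.H Z} (h : E Φ Z r x) (c : W.K) : E Φ Z r (c • x) := by
  obtain ⟨s, hs, h⟩ := h
  exact ⟨s, hs, Submodule.smul_mem _ _ h⟩

lemma E.mul {r r' : W.K} {x y : W.H Z} (hx : E Φ Z r x) (hy : E Φ Z r' y) :
    E Φ Z (r * r') (x * y) := by
  obtain ⟨s, hs, hx⟩ := hx
  obtain ⟨t, ht, hy⟩ := hy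
  refine ⟨s * t, Nat.mul_pos hs ht, ?_⟩
  rw [mul_pow]
  exact gen_mul (LinearMap.mul W.K (W.H Z)) (fun x y => frob_mul_apply Φ (s * t) x y)
    (gen_level hx t) (gen_level' hy s)

lemma E.map {r : W.K} {x : W.H X} (f : Z ⟶ X) (hx : E Φ X r x) : E Φ Z r (W.map f x) := by
  obtain ⟨s, hs, hx⟩ := hx
  obtain ⟨a, b, ha, hb, hab, h⟩ := frob_comm Φ f
  refine ⟨a * s, Nat.mul_pos ha hs, ?_⟩
  have e1 : Φ.e Z * (a * s) = Φ.e X * (b * s) := by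
    calc Φ.e Z * (a * s) = (a * Φ.e Z) * s := by ring
      _ = _ := by rw [hab]; ring
  rw [e1, ← one_mul (r ^ _)]
  refine gen_map (θ := (W.map f).toLinearMap) (fun x => ?_) (gen_level' hx b)
  rw [one_smul]
  exact h s x

lemma E.ext {r r' : W.K} {x : W.H X} {y : W.H Y} (hx : E Φ X r x) (hy : E Φ Y r' y) :
    E Φ (X.prod Y) (r * r') (W.map (fst X Y) x * W.map (snd X Y) y) :=
  (hx.map _).mul (hy.map _)

lemma E.uniq {r r' : W.K} {x : W.H Z} (h : E Φ Z r x) (h' : E Φ Z r' x) (hx : x ≠ 0) :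
    ∃ n, 0 < n ∧ r ^ n = r' ^ n := by
  obtain ⟨s, hs, h⟩ := h
  obtain ⟨t, ht, h'⟩ := h'
  exact ⟨Φ.e Z * (s * t), Nat.mul_pos (Φ.e_pos Z) (Nat.mul_pos hs ht),
    eq_of_mem_gen (gen_level h t) (gen_level' h' s) hx⟩

lemma E.congr {r r' : W.K} {x : W.H Z} (h : E Φ Z r x) {n : ℕ} (hn : 0 < n)
    (hr : r ^ n = r' ^ n) : E Φ Z r' x := by
  obtain ⟨s, hs, h⟩ := h
  refine ⟨s * n, Nat.mul_pos hs hn, ?_⟩
  have h1 := gen_level h n
  have e1 : Φ.e Z * (s * n) = n * (Φ.e Z * s) := by ring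
  rw [e1, pow_mul, ← hr, ← pow_mul, ← e1]
  exact h1

lemma E.of_genTate {s j : ℕ} (hs : 0 < s) {x : W.H Z} (h : x ∈ genTate Φ Z s j) :
    E Φ Z ((p : W.K) ^ j) x := by
  refine ⟨s, hs, ?_⟩
  have h1 := h.1
  rw [card_pow, mul_comm (Φ.e Z * s) j, pow_mul] at h1
  exact h1

lemma E.genTate {j : ℕ} {x : W.H Z} (h : E Φ Z ((p : W.K) ^ j) x) (hx : x ∈ W.gr Z (2 * j)) :
    ∃ s, 0 < s ∧ x ∈ genTate Φ Z s j := by
  obtain ⟨s, hs, h⟩ := h
  refine ⟨s, hs, ?_, hx⟩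
  rw [card_pow, mul_comm (Φ.e Z * s) j, pow_mul]
  exact h

lemma E.mem_TC {j : ℕ} {x : W.H Z} (h : E Φ Z ((p : W.K) ^ j) x) (hx : x ∈ W.gr Z (2 * j)) :
    x ∈ TC Φ Z := by
  obtain ⟨s, hs, h⟩ := h.genTate hx
  exact TC.of hs h

lemma E.one : E Φ Z 1 1 := by
  refine ⟨1, one_pos, ?_⟩
  apply eig_mem_gen
  rw [frob_one, one_pow, one_smul]

lemma exists_E [IsAlgClosed W.K] {x : W.H Z} {lam : W.K}
    (h : x ∈ (frob Φ Z 1).maxGenEigenspace lam) : ∃ r, r ^ Φ.e Z = lam ∧ E Φ Z r x := by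
  obtain ⟨r, hr⟩ := IsAlgClosed.exists_pow_nat_eq lam (Φ.e_pos Z)
  refine ⟨r, hr, 1, one_pos, ?_⟩
  rw [mul_one, hr]
  exact h

/-- In a stable subspace with a generalised eigenvector there is an eigenvector. -/
lemma exists_eig {s i : ℕ} {μ : W.K} {x : W.H Z} (hx : x ∈ W.gr Z i) (hx0 : x ≠ 0)
    (hg : x ∈ (frob Φ Z s).maxGenEigenspace μ) :
    ∃ y ∈ W.gr Z i, y ≠ 0 ∧ frob Φ Z s y = μ • y := by
  rw [Module.End.mem_maxGenEigenspace] at hg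
  obtain ⟨n, hn⟩ := hg
  induction n with
  | zero =>
    rw [pow_zero, Module.End.one_apply] at hn
    exact absurd hn hx0
  | succ n ih =>
    by_cases h0 : ((frob Φ Z s - μ • (1 : Module.End W.K (W.H Z))) ^ n) x = 0
    · exact ih h0
    · refine ⟨_, ?_, h0, ?_⟩
      · clear hn h0 ih
        induction n with
        | zero => rw [pow_zero, Module.End.one_apply]; exact hx
        | succ n ih =>
          rw [pow_succ', Module.End.mul_apply, LinearMap.sub_apply, LinearMap.smul_apply,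
            Module.End.one_apply]
          exact Submodule.sub_mem _ (W.map_mem _ ih) (Submodule.smul_mem _ _ ih)
      · rw [pow_succ', Module.End.mul_apply, LinearMap.sub_apply, LinearMap.smul_apply,
          Module.End.one_apply, sub_eq_zero] at hn
        exact hn

lemma E.occurs {i : ℕ} {r : W.K} {x : W.H Z} (h : E Φ Z r x) (hx : x ∈ W.gr Z i) (hx0 : x ≠ 0) :
    Occurs Φ Z i r := by
  obtain ⟨s, hs, h⟩ := h
  exact ⟨s, hs, exists_eig hx hx0 h⟩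

lemma Occurs.exists {i : ℕ} {r : W.K} (h : Occurs Φ Z i r) :
    ∃ x ∈ W.gr Z i, x ≠ 0 ∧ E Φ Z r x := by
  obtain ⟨s, hs, x, hx, hx0, h⟩ := h
  exact ⟨x, hx, hx0, s, hs, eig_mem_gen h⟩

lemma occurs_iff {i : ℕ} {r : W.K} : Occurs Φ Z i r ↔ ∃ x ∈ W.gr Z i, x ≠ 0 ∧ E Φ Z r x :=
  ⟨fun h => h.exists, fun ⟨_, hx, hx0, h⟩ => h.occurs hx hx0⟩

lemma Occurs.congr {i : ℕ} {r r' : W.K} (h : Occurs Φ Z i r) {n : ℕ} (hn : 0 < n)
    (hr : r ^ n = r' ^ n) : Occurs Φ Z i r' := by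
  rw [occurs_iff] at *
  obtain ⟨x, hx, hx0, h⟩ := h
  exact ⟨x, hx, hx0, h.congr hn hr⟩

/-- The trace of a generalised eigenvector. -/
lemma E.tr {r : W.K} {x : W.H Z} (h : E Φ Z r x) (hx : W.tr Z x ≠ 0) :
    ∃ n, 0 < n ∧ r ^ n = ((p : W.K) ^ Z.dim) ^ n := by
  obtain ⟨s, hs, h⟩ := h
  refine ⟨Φ.e Z * s, Nat.mul_pos (Φ.e_pos Z) hs, ?_⟩
  rw [Module.End.mem_maxGenEigenspace] at h
  obtain ⟨n, hn⟩ := h
  set μ := r ^ (Φ.e Z * s) with hμ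
  have key : ∀ m (y : W.H Z), W.tr Z (((frob Φ Z s - μ • (1 : Module.End W.K (W.H Z))) ^ m) y) =
      ((p : W.K) ^ (Φ.e Z * s * Z.dim) - μ) ^ m * W.tr Z y := by
    intro m
    induction m with
    | zero => intro y; rw [pow_zero, pow_zero, one_mul, Module.End.one_apply]
    | succ m ih =>
      intro y
      rw [pow_succ, Module.End.mul_apply, ih, LinearMap.sub_apply, LinearMap.smul_apply,
        Module.End.one_apply, map_sub, map_smul, frob_apply, tr_iter, smul_eq_mul, pow_succ]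
      ring
  have h1 := key n x
  rw [hn, map_zero] at h1
  have h2 := (mul_eq_zero.1 h1.symm).resolve_right hx
  have h3 : (p : W.K) ^ (Φ.e Z * s * Z.dim) - μ = 0 := eq_zero_of_pow_eq_zero h2
  rw [← pow_mul, mul_comm Z.dim]
  exact (sub_eq_zero.1 h3).symm

/-- A homogeneous eigenbasis. -/
lemma exists_E_basis [IsAlgClosed W.K] (Φ : FrobSystem W p) (X : 𝒱.Obj) :
    ∃ v : Module.Basis (Fin (Module.finrank W.K (W.H X))) W.K (W.H X),
      ∀ i, ∃ (d : ℕ) (r : W.K), v i ∈ W.gr X d ∧ E Φ X r (v i) := by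
  obtain ⟨v, hv⟩ := UB.exists_eig_basis Φ X
  refine ⟨v, fun i => ?_⟩
  obtain ⟨d, lam, h1, h2⟩ := hv i
  obtain ⟨r, -, h3⟩ := exists_E h2
  exact ⟨d, r, h1, h3⟩

/-- The dual eigenvector. -/
lemma E.dual [IsAlgClosed W.K] {i : ℕ} {r : W.K} {x : W.H Z} (h : E Φ Z r x)
    (hx : x ∈ W.gr Z i) (hx0 : x ≠ 0) :
    ∃ (l : ℕ) (r' : W.K) (x' : W.H Z), i + l = 2 * Z.dim ∧ x' ∈ W.gr Z l ∧ E Φ Z r' x' ∧
      (∃ n, 0 < n ∧ (r * r') ^ n = ((p : W.K) ^ Z.dim) ^ n) ∧ W.tr Z (x * x') = 1 := by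
  obtain ⟨v, hv⟩ := exists_E_basis Φ Z
  obtain ⟨a, ha⟩ : ∃ a, W.tr Z (x * v a) ≠ 0 := by
    by_contra hcon
    push Not at hcon
    apply hx0
    apply W.nondeg
    intro b
    have h1 : (W.tr Z ∘ₗ LinearMap.mulLeft W.K x) = 0 := v.ext fun a => hcon a
    exact congrArg (fun f => f b) h1
  obtain ⟨l, r', h1, h2⟩ := hv a
  refine ⟨l, r', (W.tr Z (x * v a))⁻¹ • v a, ?_, Submodule.smul_mem _ _ h1, h2.smul _,
    (h.mul h2).tr ha, ?_⟩
  · by_contra hne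
    exact ha (W.tr_eq_zero (W.mul_mem hx h1) hne)
  · rw [mul_smul_comm, map_smul, smul_eq_mul, inv_mul_cancel₀ ha]

end Pool.Agent.X297.TR
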