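import Mathlib
import Pool.Agent.W534.PoleDefs
import Pool.Agent.H914R2.DDefs

/-!
# Reduction of the Tate conjecture to one codimension on products with an abelian variety: definitions
-/

open CategoryTheory AlgebraicGeometry Polynomial

universe u v

namespace Pool.Agent.X297.TR

open Pool.Agent.H914 Pool.Agent.H914.VarClass Pool.Agent.H914.VarClass.Obj
  Pool.Agent.H914.WeilCohomology Pool.Agent.W534

/-- The element `r` is a Weil number of weight one relative to `p`: it is a root of a monic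
polynomial with integral coefficients all of whose complex roots have absolute value `√p`. -/
def IsWeilNumber {K : Type*} [Field K] (p : ℕ) (r : K) : Prop :=
  ∃ f : ℤ[X], f.Monic ∧ aeval r f = 0 ∧ ∀ z : ℂ, aeval z f = 0 → ‖z‖ ^ 2 = p

variable {k : Type u} [Field k] {𝒱 : VarClass k} {ops : CycleOps 𝒱}

/-- The number `r` occurs on `H^i(X)`: for some `s > 0` the power `r ^ a` is an eigenvalue on
`H^i(X)` of the Frobenius endomorphism over the field with `card Φ X s = p ^ a` elements,
where `a = Φ.e X * s`. -/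
def Occurs {W : WeilCohomology.{u, v} ops} {p : ℕ} (Φ : FrobSystem W p) (X : 𝒱.Obj) (i : ℕ)
    (r : W.K) : Prop :=
  ∃ s, 0 < s ∧ ∃ x ∈ W.gr X i, x ≠ 0 ∧ W.map (iter (Φ.Fr X) s) x = r ^ (Φ.e X * s) • x

/-- Every Weil number of weight one relative to `p` occurs on `H^1` of a member of the class `𝒜`. -/
def HondaTate {W : WeilCohomology.{u, v} ops} {p : ℕ} (Φ : FrobSystem W p) (𝒜 : Set 𝒱.Obj) :
    Prop :=
  ∀ r : W.K, IsWeilNumber p r → ∃ A ∈ 𝒜, Occurs Φ A 1 r

/-- The characteristic polynomials of the Frobenius endomorphism of the model of `X` over the field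
with `card Φ X 1` elements, on the groups `H^i(X)`, have integral coefficients. -/
def IntegralFrobenius {W : WeilCohomology.{u, v} ops} {p : ℕ} (Φ : FrobSystem W p)
    (σ : W.K →+* ℂ) (X : 𝒱.Obj) : Prop :=
  ∀ i, ∃ f : ℤ[X], frobPoly Φ σ X 1 i = f.map (Int.castRingHom ℂ)

/-- Every number which occurs on `H^i(Y)` occurs on `H^i(B)`, for all `i`. -/
def Covers {W : WeilCohomology.{u, v} ops} {p : ℕ} (Φ : FrobSystem W p) (B Y : 𝒱.Obj) : Prop :=
  ∀ i r, Occurs Φ Y i r → Occurs Φ B i r

/-- The set `U` is (the underlying set of) a linear subspace. -/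
def IsSubspace (K : Type*) [Field K] {V : Type*} [AddCommGroup V] [Module K V] (U : Set V) : Prop :=
  ∃ S : Submodule K V, ∀ x, x ∈ S ↔ x ∈ U

/-- The values of `cl` at the elements `z` with `isCyc j z` for some `j` are in `U`. -/
def ContainsClasses {C H : Type*} [AddCommGroup C] [Ring H] (isCyc : ℕ → C → Prop) (cl : C →+ H)
    (U : Set H) : Prop := ∀ j z, isCyc j z → cl z ∈ U

/-- The set is closed under products. -/
def ClosedMul {H : Type*} [Mul H] (U : Set H) : Prop := ∀ c ∈ U, ∀ d ∈ U, c * d ∈ U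

/-- The algebra homomorphism `f` maps `U` into `U'`. -/
def AlgMapsTo {K H H' : Type*} [Field K] [Ring H] [Algebra K H] [Ring H'] [Algebra K H']
    (f : H →ₐ[K] H') (U : Set H) (U' : Set H') : Prop := ∀ c ∈ U, f c ∈ U'

/-- The linear map `f` maps `U` into `U'`. -/
def LinMapsTo {K H H' : Type*} [Field K] [Ring H] [Algebra K H] [Ring H'] [Algebra K H']
    (f : H →ₗ[K] H') (U : Set H) (U' : Set H') : Prop := ∀ c ∈ U, f c ∈ U'

/-- The sets `C X` are linear subspaces which contain the classes of the algebraic cycles, and they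
are stable under products, pull-backs and push-forwards. -/
structure IsClosedSystem (W : WeilCohomology.{u, v} ops) (C : ∀ X : 𝒱.Obj, Set (W.H X)) : Prop where
  sub : ∀ X : 𝒱.Obj, IsSubspace W.K (C X)
  cycle : ∀ X : 𝒱.Obj, ContainsClasses X.IsCyc (W.cl X) (C X)
  mul : ∀ X : 𝒱.Obj, ClosedMul (C X)
  pull : ∀ (X Y : 𝒱.Obj) (f : X ⟶ Y), AlgMapsTo (W.map f) (C Y) (C X)
  push : ∀ (X Y : 𝒱.Obj) (f : X ⟶ Y), LinMapsTo (W.push f) (C X) (C Y)

/-- The class `c` on `Z` is obtained from the classes in the sets `S X` and from classes of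
algebraic cycles by linear combinations, products, pull-backs and push-forwards. -/
def Generated (W : WeilCohomology.{u, v} ops) (S : ∀ X : 𝒱.Obj, Set (W.H X)) (Z : 𝒱.Obj)
    (c : W.H Z) : Prop :=
  ∀ C : ∀ X : 𝒱.Obj, Set (W.H X), IsClosedSystem W C → (∀ X, S X ⊆ C X) → c ∈ C Z

/-- The generalised Tate classes on the members of `𝒜`, and the generalised Tate classes of
codimension `dim (B Y)` on the products `B Y × Y` for `Y` in `𝒴`. -/
def sources {W : WeilCohomology.{u, v} ops} {p : ℕ} (Φ : FrobSystem W p) (𝒜 𝒴 : Set 𝒱.Obj)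
    (B : 𝒱.Obj → 𝒱.Obj) (X : 𝒱.Obj) : Set (W.H X) :=
  {c | ∃ s j, 0 < s ∧ c ∈ genTate Φ X s j ∧
    (X ∈ 𝒜 ∨ ∃ Y ∈ 𝒴, X = (B Y).prod Y ∧ j = (B Y).dim)}

end Pool.Agent.X297.TR
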