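import Pool.Agent.X297.TR.Trans

/-!
# Existence of covering varieties
-/

open CategoryTheory AlgebraicGeometry Polynomial

universe u v

namespace Pool.Agent.X297.TR

open Pool.Agent.H914 Pool.Agent.W534 Pool.Agent.H914.VarClass Pool.Agent.H914.VarClass.Obj
  Pool.Agent.H914.WeilCohomology Pool.Agent.H281R3.HT Pool.Agent.W536.RR Pool.Agent.W458.MF
open Pool.Agent.Y129 (opL opL_tmul_apply)

variable {k : Type u} [Field k] {𝒱 : VarClass k} {ops : CycleOps 𝒱}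
  {W : WeilCohomology.{u, v} ops} {X Y Z : 𝒱.Obj} {p : ℕ} {Φ : FrobSystem W p}

lemma ext_ne_zero {x : W.H X} {y : W.H Y} (hx : x ≠ 0) (hy : y ≠ 0) :
    W.map (fst X Y) x * W.map (snd X Y) y ≠ 0 := by
  intro h
  apply hy
  apply W.nondeg
  intro z
  by_contra hz
  apply hx
  have h1 := opL_tmul_apply x y z
  rw [h, map_zero, LinearMap.zero_apply] at h1
  exact (smul_eq_zero.1 h1.symm).resolve_left hz

lemma one_ne_zero_of {x : W.H X} (hx : x ≠ 0) : (1 : W.H X) ≠ 0 := by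
  intro h
  apply hx
  rw [← one_mul x, h, zero_mul]

lemma Occurs.prod_left {i : ℕ} {r : W.K} (h : Occurs Φ X i r) (hY : (1 : W.H Y) ≠ 0) :
    Occurs Φ (X.prod Y) i r := by
  obtain ⟨x, hx, hx0, hE⟩ := h.exists
  have h1 := ext_ne_zero hx0 hY
  rw [map_one, mul_one] at h1
  exact (hE.map (fst X Y)).occurs (W.map_mem _ hx) h1

lemma Occurs.prod_right {i : ℕ} {r : W.K} (h : Occurs Φ Y i r) (hX : (1 : W.H X) ≠ 0) :
    Occurs Φ (X.prod Y) i r := by
  obtain ⟨x, hx, hx0, hE⟩ := h.exists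
  have h1 := ext_ne_zero hX hx0
  rw [map_one, one_mul] at h1
  exact (hE.map (snd X Y)).occurs (W.map_mem _ hx) h1

lemma Occurs.mul {i l : ℕ} {r r' : W.K} (h : Occurs Φ X i r) (h' : Occurs Φ Y l r') :
    Occurs Φ (X.prod Y) (i + l) (r * r') := by
  obtain ⟨x, hx, hx0, hE⟩ := h.exists
  obtain ⟨y, hy, hy0, hE'⟩ := h'.exists
  exact (hE.ext hE').occurs (W.mul_mem (W.map_mem _ hx) (W.map_mem _ hy)) (ext_ne_zero hx0 hy0)

lemma Occurs.one_ne {i : ℕ} {r : W.K} (h : Occurs Φ X i r) : (1 : W.H X) ≠ 0 := by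
  obtain ⟨x, -, hx0, -⟩ := h.exists
  exact one_ne_zero_of hx0

lemma Occurs.pow {𝒜 : Set 𝒱.Obj} (hprod : ∀ A ∈ 𝒜, ∀ A' ∈ 𝒜, A.prod A' ∈ 𝒜) {A : 𝒱.Obj}
    (hA : A ∈ 𝒜) {r : W.K} (h : Occurs Φ A 1 r) (n : ℕ) :
    ∃ B ∈ 𝒜, Occurs Φ B (n + 1) (r ^ (n + 1)) := by
  induction n with
  | zero => exact ⟨A, hA, by rw [zero_add, pow_one]; exact h⟩
  | succ n ih =>
    obtain ⟨B, hB, h2⟩ := ih
    refine ⟨B.prod A, hprod _ hB _ hA, ?_⟩
    rw [pow_succ]
    exact h2.mul h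

/-- The roots of the Frobenius polynomials are powers of Weil numbers. -/
lemma isWeil_of_pow {σ : W.K →+* ℂ} (hRH : RiemannHyp Φ σ Y)
    (hInt : IntegralFrobenius Φ σ Y) {d : ℕ} (hd : 0 < d) {r π : W.K} {x : W.H Y}
    (hx : x ∈ W.gr Y d) (hx0 : x ≠ 0) (hg : x ∈ (frob Φ Y 1).maxGenEigenspace (r ^ Φ.e Y))
    (hπ : π ^ d = r) : IsWeilNumber p π := by
  obtain ⟨f, hf⟩ := hInt d
  have hinjC : Function.Injective (Int.castRingHom ℂ) := Int.cast_injective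
  have hfm : f.Monic := by
    apply Polynomial.monic_of_injective hinjC
    rw [← hf, frobPoly_eq]
    exact (LinearMap.charpoly_monic _).map _
  have hroot := UB.isRoot_of_gen σ hx hx0 hg
  have hde : 0 < d * Φ.e Y := Nat.mul_pos hd (Φ.e_pos Y)
  refine ⟨Polynomial.expand ℤ (d * Φ.e Y) f, hfm.expand hde, ?_, ?_⟩
  · rw [Polynomial.expand_aeval, pow_mul, hπ]
    apply σ.injective
    rw [map_zero]
    have h1 : σ (aeval (r ^ Φ.e Y) f) = aeval (σ (r ^ Φ.e Y)) f := by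
      rw [aeval_def, Polynomial.hom_eval₂, aeval_def]
      congr 1
      exact RingHom.ext_int _ _
    rw [h1]
    rw [hf, IsRoot.def, Polynomial.eval_map] at hroot
    exact hroot
  · intro z hz
    rw [Polynomial.expand_aeval] at hz
    have h1 := hRH 1 one_pos d (z ^ (d * Φ.e Y)) (by
      rw [hf, IsRoot.def, Polynomial.eval_map]
      exact hz)
    rw [norm_pow, ← pow_mul, mul_comm (d * Φ.e Y) 2, pow_mul ‖z‖ 2, card, mul_one, Nat.cast_pow,
      ← pow_mul (p : ℝ), mul_comm (Φ.e Y) d] at h1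
    exact (pow_left_inj₀ (by positivity) (Nat.cast_nonneg p) hde.ne').1 h1

lemma isWeil_sqrt (p : ℕ) {K : Type*} [Field K] {r : K} (hr : r ^ 2 = p) : IsWeilNumber p r := by
  refine ⟨X ^ 2 - C (p : ℤ), monic_X_pow_sub_C _ two_ne_zero, ?_, ?_⟩
  · simp [hr]
  · intro z hz
    have h1 : z ^ 2 = p := by
      have : z ^ 2 - p = 0 := by simpa using hz
      exact sub_eq_zero.1 this
    rw [← norm_pow, h1, Complex.norm_natCast]

/-- For finitely many numbers which occur on members of `𝒜` there is a member of `𝒜` on which all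
of them occur. -/
lemma exists_common {𝒜 : Set 𝒱.Obj} (hprod : ∀ A ∈ 𝒜, ∀ A' ∈ 𝒜, A.prod A' ∈ 𝒜) {A₀ : 𝒱.Obj}
    (hA₀ : A₀ ∈ 𝒜) (h₀ : (1 : W.H A₀) ≠ 0) (L : List (ℕ × W.K))
    (hL : ∀ a ∈ L, ∃ A ∈ 𝒜, Occurs Φ A a.1 a.2) :
    ∃ B ∈ 𝒜, (1 : W.H B) ≠ 0 ∧ ∀ a ∈ L, Occurs Φ B a.1 a.2 := by
  induction L with
  | nil => exact ⟨A₀, hA₀, h₀, fun a ha => absurd ha List.not_mem_nil⟩
  | cons a L ih =>
    obtain ⟨B, hB, h1, h2⟩ := ih fun b hb => hL b (List.mem_cons_of_mem _ hb)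
    obtain ⟨A, hA, h3⟩ := hL a List.mem_cons_self
    refine ⟨B.prod A, hprod _ hB _ hA, ?_, ?_⟩
    · have := ext_ne_zero h1 h3.one_ne
      rwa [map_one, map_one, mul_one] at this
    · intro b hb
      rcases List.mem_cons.1 hb with rfl | hb
      · exact h3.prod_right h1
      · exact (h2 b hb).prod_left h3.one_ne

/-- **Covering varieties exist.** -/
theorem exists_covers [IsAlgClosed W.K] {σ : W.K →+* ℂ} {𝒜 : Set 𝒱.Obj}
    (hprod : ∀ A ∈ 𝒜, ∀ A' ∈ 𝒜, A.prod A' ∈ 𝒜) (hHT : HondaTate Φ 𝒜) (Y : 𝒱.Obj)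
    (hRH : RiemannHyp Φ σ Y) (hInt : IntegralFrobenius Φ σ Y) :
    ∃ B ∈ 𝒜, (1 : W.H B) ≠ 0 ∧ Covers Φ B Y := by
  classical
  obtain ⟨v, hv⟩ := UB.exists_eig_basis Φ Y
  have hv' : ∀ i, ∃ (d : ℕ) (r : W.K), v i ∈ W.gr Y d ∧
      v i ∈ (frob Φ Y 1).maxGenEigenspace (r ^ Φ.e Y) := by
    intro i
    obtain ⟨d, lam, h1, h2⟩ := hv i
    obtain ⟨r, hr⟩ := IsAlgClosed.exists_pow_nat_eq lam (Φ.e_pos Y)
    exact ⟨d, r, h1, by rw [hr]; exact h2⟩
  clear hv
  choose d r hd hr using hv'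
  have hE : ∀ i, E Φ Y (r i) (v i) := fun i => ⟨1, one_pos, by rw [mul_one]; exact hr i⟩
  obtain ⟨ρ, hρ⟩ := IsAlgClosed.exists_pow_nat_eq (p : W.K) two_pos
  obtain ⟨A₀, hA₀, hocc⟩ := hHT ρ (isWeil_sqrt p hρ)
  have h₀ := hocc.one_ne
  obtain ⟨B, hB, hB1, hB2⟩ := exists_common (Φ := Φ) hprod hA₀ h₀
    (List.ofFn fun i => (d i, r i)) (by
      intro a ha
      obtain ⟨i, rfl⟩ := (List.mem_ofFn' _ _).1 ha
      change ∃ A ∈ 𝒜, Occurs Φ A (d i) (r i)
      rcases Nat.eq_zero_or_pos (d i) with h | h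
      · refine ⟨A₀, hA₀, ?_⟩
        have h1 := hd i
        rw [h, W.gr_zero, Submodule.mem_span_singleton] at h1
        obtain ⟨c, hc⟩ := h1
        have hc0 : c ≠ 0 := by
          rintro rfl
          rw [zero_smul] at hc
          exact v.ne_zero i hc.symm
        have h2 : E Φ Y (r i) 1 := by
          have := (hE i).smul c⁻¹
          rwa [← hc, smul_smul, inv_mul_cancel₀ hc0, one_smul] at this
        obtain ⟨n, hn, h3⟩ := E.uniq E.one h2 (one_ne_zero_of (v.ne_zero i))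
        rw [h]
        exact (E.one.congr hn h3).occurs (W.one_mem _) h₀
      · obtain ⟨π, hπ⟩ := IsAlgClosed.exists_pow_nat_eq (r i) h
        have h1 := isWeil_of_pow hRH hInt h (hd i) (v.ne_zero i) (hr i) hπ
        obtain ⟨A, hA, h2⟩ := hHT π h1
        obtain ⟨n, hn⟩ : ∃ n, d i = n + 1 := ⟨d i - 1, by omega⟩
        obtain ⟨B, hB, h3⟩ := h2.pow hprod hA n
        refine ⟨B, hB, ?_⟩
        rw [← hn, hπ] at h3
        exact h3)
  refine ⟨B, hB, hB1, ?_⟩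
  intro i r' h
  obtain ⟨y, hy, hy0, s, hs, hg⟩ := h.exists
  -- a basis element with the same eigenvalue and the same degree
  obtain ⟨a, ha1, ha2⟩ : ∃ a, d a = i ∧ v a ∈ (frob Φ Y s).maxGenEigenspace (r' ^ (Φ.e Y * s)) := by
    by_contra hcon
    push Not at hcon
    have h1 : y ∈ Submodule.span W.K (Set.range v) := by rw [v.span_eq]; trivial
    have h2 := mem_span_gen (T := frob Φ Y s) (M := Set.range v) (by
      rintro _ ⟨a, rfl⟩
      have := gen_level (r := r a) (s := 1) (x := v a) (by rw [mul_one]; exact hr a) s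
      exact ⟨_, by rwa [one_mul] at this⟩) h1 hg
    have key : ∀ z ∈ Submodule.span W.K {m | m ∈ Set.range v ∧
        m ∈ (frob Φ Y s).maxGenEigenspace (r' ^ (Φ.e Y * s))},
        proj (W.isInternal Y) i z = 0 := by
      intro z hz
      induction hz using Submodule.span_induction with
      | zero => rw [map_zero]
      | add a b _ _ ha hb => rw [map_add, ha, hb, add_zero]
      | smul t a _ ha => rw [map_smul, ha, smul_zero]
      | mem m hm =>
        obtain ⟨⟨a, rfl⟩, hm⟩ := hm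
        exact proj_ne _ (hd a) fun h => hcon a h hm
    have h3 := key y h2
    rw [proj_same _ hy] at h3
    exact hy0 h3
  obtain ⟨n, hn, h1⟩ := E.uniq (hE a) ⟨s, hs, ha2⟩ (v.ne_zero a)
  have h2 := hB2 (d a, r a) ((List.mem_ofFn' _ _).2 ⟨a, rfl⟩)
  have h3 := Occurs.congr h2 hn h1
  rw [← ha1]
  exact h3

end Pool.Agent.X297.TR
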