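import Pool.Agent.X297.TR.Honda

/-!
# Reduction of the Tate conjecture to one codimension on products with an abelian variety
-/

open CategoryTheory AlgebraicGeometry Polynomial

universe u v

namespace Pool.Agent.X297.TR

open Pool.Agent.H914 Pool.Agent.W534 Pool.Agent.H914.VarClass Pool.Agent.H914.VarClass.Obj
  Pool.Agent.H914.WeilCohomology Pool.Agent.H281R3.HT Pool.Agent.W536.RR Pool.Agent.W458.MF
open Pool.Agent.Y133.Half (TC TC.of TC.ind Sys prod_hom_ext θ₃)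

variable {k : Type u} [Field k] {𝒱 : VarClass k} {ops : CycleOps 𝒱}
  {W : WeilCohomology.{u, v} ops} {X Y Z : 𝒱.Obj} {p : ℕ} {Φ : FrobSystem W p}

lemma iso {S : Sys W} (θ : X ≅ Y) (h : TC Φ Y ≤ S.C Y) : TC Φ X ≤ S.C X :=
  retract S θ.hom θ.inv θ.hom_inv_id h

/-- `(X × Y) × A ≅ (X × A) × Y`. -/
noncomputable def θ₄ (X Y A : 𝒱.Obj) : (X.prod Y).prod A ≅ (X.prod A).prod Y where
  hom := Obj.lift (Obj.lift (fst _ _ ≫ fst _ _) (snd _ _)) (fst _ _ ≫ snd _ _)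
  inv := Obj.lift (Obj.lift (fst _ _ ≫ fst _ _) (snd _ _)) (fst _ _ ≫ snd _ _)
  hom_inv_id := by
    apply prod_hom_ext
    · apply prod_hom_ext <;> simp
    · simp
  inv_hom_id := by
    apply prod_hom_ext
    · apply prod_hom_ext <;> simp
    · simp

/-- `(Z' × (X × Y)) × A ≅ ((Z' × X) × Y) × A`. -/
noncomputable def θ₅ (Z' X Y A : 𝒱.Obj) :
    (Z'.prod (X.prod Y)).prod A ≅ ((Z'.prod X).prod Y).prod A where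
  hom := Obj.lift (fst _ _ ≫ (θ₃ Z' X Y).inv) (snd _ _)
  inv := Obj.lift (fst _ _ ≫ (θ₃ Z' X Y).hom) (snd _ _)
  hom_inv_id := by
    apply prod_hom_ext
    · simp [Pool.Agent.Y133.Half.comp_lift]
    · simp
  inv_hom_id := by
    apply prod_hom_ext
    · simp
    · simp

/-- `X × Y ≅ Y × X`. -/
noncomputable def θ₆ (X Y : 𝒱.Obj) : X.prod Y ≅ Y.prod X where
  hom := Obj.lift (snd _ _) (fst _ _)
  inv := Obj.lift (snd _ _) (fst _ _)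
  hom_inv_id := by apply prod_hom_ext <;> simp
  inv_hom_id := by apply prod_hom_ext <;> simp

/-- The generalised Tate classes on the products with members of `𝒜` are in the system. -/
def Good (Φ : FrobSystem W p) (S : Sys W) (𝒜 : Set 𝒱.Obj) (Z : 𝒱.Obj) : Prop :=
  ∀ A ∈ 𝒜, TC Φ (Z.prod A) ≤ S.C _

variable {S : Sys W} {𝒜 : Set 𝒱.Obj}

lemma Good.mul_mem (hprod : ∀ A ∈ 𝒜, ∀ A' ∈ 𝒜, A.prod A' ∈ 𝒜) {Z' A' : 𝒱.Obj} (hA' : A' ∈ 𝒜)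
    (h : Good Φ S 𝒜 Z') : Good Φ S 𝒜 (Z'.prod A') :=
  fun A hA => iso (θ₃ Z' A' A) (h _ (hprod _ hA' _ hA))

lemma Good.mul_cov [IsAlgClosed W.K] (hprod : ∀ A ∈ 𝒜, ∀ A' ∈ 𝒜, A.prod A' ∈ 𝒜)
    {Z' Y B : 𝒱.Obj} (hB : B ∈ 𝒜) (hcov : Covers Φ B Y)
    (h2 : ∀ s, 0 < s → genTate Φ (B.prod Y) s B.dim ≤ S.C _) (h : Good Φ S 𝒜 Z') :
    Good Φ S 𝒜 (Z'.prod Y) := by
  intro A hA
  refine iso (θ₄ Z' Y A) (trans S (B := B) ?_ h2 hcov)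
  exact iso (θ₃ Z' A B) (h _ (hprod _ hA _ hB))

lemma Good.mul [IsAlgClosed W.K] (hprod : ∀ A ∈ 𝒜, ∀ A' ∈ 𝒜, A.prod A' ∈ 𝒜) {𝒴 : Set 𝒱.Obj}
    {B : 𝒱.Obj → 𝒱.Obj} (hB : ∀ Y ∈ 𝒴, B Y ∈ 𝒜 ∧ Covers Φ (B Y) Y)
    (h2 : ∀ Y ∈ 𝒴, ∀ s, 0 < s → genTate Φ ((B Y).prod Y) s (B Y).dim ≤ S.C _)
    (hZ : IsProductOf (𝒜 ∪ 𝒴) Z) : ∀ Z', Good Φ S 𝒜 Z' → Good Φ S 𝒜 (Z'.prod Z) := by
  induction hZ with
  | base h =>
    intro Z' hZ'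
    rcases h with h | h
    · exact hZ'.mul_mem hprod h
    · exact hZ'.mul_cov hprod (hB _ h).1 (hB _ h).2 (h2 _ h)
  | prod _ _ ih1 ih2 =>
    intro Z' hZ' A hA
    exact iso (θ₅ _ _ _ A) (ih2 _ (ih1 _ hZ') A hA)

/-- The generalised Tate classes on products belong to the system. -/
theorem tate_mem [IsAlgClosed W.K] (hprod : ∀ A ∈ 𝒜, ∀ A' ∈ 𝒜, A.prod A' ∈ 𝒜) {𝒴 : Set 𝒱.Obj}
    {B : 𝒱.Obj → 𝒱.Obj} (hB : ∀ Y ∈ 𝒴, B Y ∈ 𝒜 ∧ Covers Φ (B Y) Y)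
    (h1 : ∀ A ∈ 𝒜, TC Φ A ≤ S.C _)
    (h2 : ∀ Y ∈ 𝒴, ∀ s, 0 < s → genTate Φ ((B Y).prod Y) s (B Y).dim ≤ S.C _)
    {A₀ : 𝒱.Obj} (hA₀ : A₀ ∈ 𝒜) (h₀ : (1 : W.H A₀) ≠ 0)
    (hZ : IsProductOf (𝒜 ∪ 𝒴) Z) : TC Φ Z ≤ S.C Z := by
  have h3 : Good Φ S 𝒜 A₀ := fun A hA => h1 _ (hprod _ hA₀ _ hA)
  have h4 := Good.mul hprod hB h2 hZ A₀ h3 A₀ hA₀
  exact factor S h₀ (factor S h₀ (iso (θ₆ _ _) h4))

lemma isClosedSystem_algSpan (W : WeilCohomology.{u, v} ops) :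
    IsClosedSys W (fun X => algSpan W X) where
  cycle _ _ _ hz := cl_mem_algSpan hz
  mul _ _ _ h h' := algSpan_mul h h'
  pull _ _ f _ h := algSpan_map f h
  push _ _ f _ h := algSpan_push f h

lemma exists_nonzero [IsAlgClosed W.K] (hHT : HondaTate Φ 𝒜) : ∃ A₀ ∈ 𝒜, (1 : W.H A₀) ≠ 0 := by
  obtain ⟨ρ, hρ⟩ := IsAlgClosed.exists_pow_nat_eq (p : W.K) two_pos
  obtain ⟨A₀, hA₀, hocc⟩ := hHT ρ (isWeil_sqrt p hρ)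
  exact ⟨A₀, hA₀, hocc.one_ne⟩

theorem generated [IsAlgClosed W.K] (hprod : ∀ A ∈ 𝒜, ∀ A' ∈ 𝒜, A.prod A' ∈ 𝒜)
    (hHT : HondaTate Φ 𝒜) {𝒴 : Set 𝒱.Obj} {B : 𝒱.Obj → 𝒱.Obj}
    (hB : ∀ Y ∈ 𝒴, B Y ∈ 𝒜 ∧ Covers Φ (B Y) Y) (hZ : IsProductOf (𝒜 ∪ 𝒴) Z) {s j : ℕ}
    {c : W.H Z} (hs : 0 < s) (hc : c ∈ genTate Φ Z s j) :
    Generated W (sources Φ 𝒜 𝒴 B) Z c := by
  intro C₀ hC₀ hS₀
  obtain ⟨C, hCC, hC⟩ := hC₀.exists_sys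
  have hS : ∀ X, ∀ x ∈ sources Φ 𝒜 𝒴 B X, x ∈ C X := fun X x hx => (hCC X x).2 (hS₀ X hx)
  rw [← hCC]
  obtain ⟨A₀, hA₀, h₀⟩ := exists_nonzero hHT
  have key := tate_mem (S := sys Φ hC) hprod hB (by
    intro A hA x hx
    refine ⟨?_, hx⟩
    refine TC.ind (q := fun x => x ∈ C A) ?_ (Submodule.zero_mem _)
      (fun a b ha hb => Submodule.add_mem _ ha hb) hx
    intro s j hs x hx
    exact hS A x ⟨s, j, hs, hx, Or.inl hA⟩) (by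
    intro Y hY s hs x hx
    exact ⟨hS _ x ⟨s, _, hs, hx, Or.inr ⟨Y, hY, rfl, rfl⟩⟩, TC.of hs hx⟩) hA₀ h₀ hZ
  exact (key (TC.of hs hc)).1

theorem poles [IsAlgClosed W.K] {σ : W.K →+* ℂ} (hp : 1 < p) (hRH : ∀ Z, RiemannHyp Φ σ Z)
    (hprod : ∀ A ∈ 𝒜, ∀ A' ∈ 𝒜, A.prod A' ∈ 𝒜)
    (hHT : HondaTate Φ 𝒜) {𝒴 : Set 𝒱.Obj} {B : 𝒱.Obj → 𝒱.Obj}
    (hB : ∀ Y ∈ 𝒴, B Y ∈ 𝒜 ∧ Covers Φ (B Y) Y)
    (h1 : ∀ A ∈ 𝒜, ∀ j ≤ A.dim, PoleFormula Φ σ A j)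
    (h2 : ∀ Y ∈ 𝒴, PoleFormula Φ σ ((B Y).prod Y) (B Y).dim) (hZ : IsProductOf (𝒜 ∪ 𝒴) Z) :
    ∀ j ≤ Z.dim, PoleFormula Φ σ Z j := by
  obtain ⟨A₀, hA₀, h₀⟩ := exists_nonzero hHT
  have hC := isClosedSystem_algSpan W
  have key := tate_mem (S := sys Φ hC) hprod hB (by
    intro A hA x hx
    refine ⟨?_, hx⟩
    refine TC.ind (q := fun x => x ∈ algSpan W A) ?_ (Submodule.zero_mem _)
      (fun a b ha hb => Submodule.add_mem _ ha hb) hx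
    intro s j hs x hx
    by_cases hj : j ≤ A.dim
    · obtain ⟨l, hl⟩ := Nat.exists_eq_add_of_le hj
      exact W397.MF.spanCycles_le_algSpan _
        ((semisimple_of_pole hp (hRH A) hl.symm (h1 A hA j hj)).1 s hs hx)
    · have h3 := hx.2
      rw [W.gr_eq_bot A (2 * j) (by omega)] at h3
      rw [(Submodule.mem_bot _).1 h3]
      exact Submodule.zero_mem _) (by
    intro Y hY s hs x hx
    refine ⟨?_, TC.of hs hx⟩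
    exact W397.MF.spanCycles_le_algSpan _
      ((semisimple_of_pole (l := Y.dim) hp (hRH _) (Obj.dim_prod _ _).symm
        (h2 Y hY)).1 s hs hx)) hA₀ h₀ hZ
  refine Pool.Agent.W216.MF.pole W σ p hp Φ Z (hRH _) fun j _ s hs c hc => ?_
  exact spanCycles_of_alg (key (TC.of hs hc)).1 hc.2

end Pool.Agent.X297.TR
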