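import Pool.Agent.X297.TR.Gen

/-!
# Transitivity
-/

open CategoryTheory AlgebraicGeometry Polynomial

universe u v

namespace Pool.Agent.X297.TR

open Pool.Agent.H914 Pool.Agent.W534 Pool.Agent.H914.VarClass Pool.Agent.H914.VarClass.Obj
  Pool.Agent.H914.WeilCohomology Pool.Agent.H281R3.HT Pool.Agent.W536.RR Pool.Agent.W458.MF
open Pool.Agent.Y133.Half (TC TC.of TC.ind TC.mul TC.map TC.push TC.one TC.even TC.nondeg Sys
  tateSys alg_le_tate)
open Pool.Agent.Y129 (opL opL_tmul_apply opL_injective opL_apply swap_swap)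

variable {k : Type u} [Field k] {𝒱 : VarClass k} {ops : CycleOps 𝒱}
  {W : WeilCohomology.{u, v} ops} {X Y Z : 𝒱.Obj} {p : ℕ} {Φ : FrobSystem W p}

/-- The subspaces `C X` contain the classes of the algebraic cycles, and they are stable under
products, pull-backs and push-forwards. -/
structure IsClosedSys (W : WeilCohomology.{u, v} ops) (C : ∀ X : 𝒱.Obj, Submodule W.K (W.H X)) :
    Prop where
  cycle : ∀ (X : 𝒱.Obj) (j : ℕ) (z : X.Cycles), X.IsCyc j z → W.cl X z ∈ C X
  mul : ∀ (X : 𝒱.Obj) (c d : W.H X), c ∈ C X → d ∈ C X → c * d ∈ C X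
  pull : ∀ (X Y : 𝒱.Obj) (f : X ⟶ Y) (c : W.H Y), c ∈ C Y → W.map f c ∈ C X
  push : ∀ (X Y : 𝒱.Obj) (f : X ⟶ Y) (c : W.H X), c ∈ C X → W.push f c ∈ C Y

lemma IsClosedSystem.exists_sys {C : ∀ X : 𝒱.Obj, Set (W.H X)} (hC : IsClosedSystem W C) :
    ∃ C' : ∀ X : 𝒱.Obj, Submodule W.K (W.H X), (∀ X x, x ∈ C' X ↔ x ∈ C X) ∧ IsClosedSys W C' := by
  choose C' hC' using hC.sub
  refine ⟨C', hC', ⟨fun X j z hz => (hC' X _).2 (hC.cycle X j z hz), fun X c d hc hd => ?_,
    fun X Y f c hc => ?_, fun X Y f c hc => ?_⟩⟩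
  · exact (hC' X _).2 (hC.mul X c ((hC' X c).1 hc) d ((hC' X d).1 hd))
  · exact (hC' X _).2 (hC.pull X Y f c ((hC' Y c).1 hc))
  · exact (hC' Y _).2 (hC.push X Y f c ((hC' X c).1 hc))

/-- The system of the classes which are in `C` and generalised Tate classes. -/
noncomputable def sys (Φ : FrobSystem W p) {C : ∀ X : 𝒱.Obj, Submodule W.K (W.H X)}
    (hC : IsClosedSys W C) : Sys W where
  C X := C X ⊓ TC Φ X
  even h := TC.even h.2
  one X := by
    refine ⟨?_, TC.one⟩
    rw [← W.cl_fund X]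
    exact hC.cycle X _ _ X.V.fundCycle_mem
  mul h h' := ⟨hC.mul _ _ _ h.1 h'.1, TC.mul h.2 h'.2⟩
  map f _ h := ⟨hC.pull _ _ f _ h.1, TC.map f h.2⟩
  push f _ h := ⟨hC.push _ _ f _ h.1, TC.push f h.2⟩

variable {C : ∀ X : 𝒱.Obj, Submodule W.K (W.H X)} (hC : IsClosedSys W C)

lemma sys_C (hC : IsClosedSys W C) : (sys Φ hC).C X = C X ⊓ TC Φ X := rfl

section Comp

variable (S : Sys W)

lemma opL_mem_iff {c : W.H (X.prod Y)} : opL W X Y c ∈ S.Op Y X ↔ c ∈ S.C (X.prod Y) := by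
  constructor
  · intro h
    obtain ⟨d, hd, h1⟩ := Pool.Agent.Y133.Half.Sys.mem_Op.1 h
    have h2 : opL W X Y (W.map (swap X Y) d) = opL W X Y c := by
      rw [opL_apply, swap_swap, h1]
    rw [← opL_injective h2]
    exact S.map _ hd
  · intro h
    exact Pool.Agent.Y133.Half.Sys.Op.corr (S.map _ h)

/-- Composition of correspondences. -/
lemma comp_mem' {Z' B : 𝒱.Obj} {u : W.H Z'} {x x' : W.H B} {y : W.H Y}
    (h1 : W.map (fst Z' B) u * W.map (snd Z' B) x ∈ S.C (Z'.prod B))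
    (h2 : W.map (fst B Y) x' * W.map (snd B Y) y ∈ S.C (B.prod Y)) (h : W.tr B (x * x') = 1) :
    W.map (fst Z' Y) u * W.map (snd Z' Y) y ∈ S.C (Z'.prod Y) := by
  rw [← opL_mem_iff] at *
  have h3 := Pool.Agent.Y133.Half.Sys.Op.comp h1 h2
  have h4 : opL W Z' Y (W.map (fst Z' Y) u * W.map (snd Z' Y) y) =
      opL W Z' B (W.map (fst Z' B) u * W.map (snd Z' B) x) ∘ₗ
        opL W B Y (W.map (fst B Y) x' * W.map (snd B Y) y) := by
    apply LinearMap.ext
    intro z
    rw [LinearMap.comp_apply, opL_tmul_apply, opL_tmul_apply, opL_tmul_apply, mul_smul_comm,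
      map_smul, h, smul_eq_mul, mul_one]
  rw [h4]
  exact h3

end Comp

/-- The generalised Tate classes on a product are linear combinations of products of homogeneous
generalised eigenvectors which are generalised Tate classes. -/
lemma TC_prod_ind [IsAlgClosed W.K] {q : W.H (X.prod Y) → Prop} (h0 : q 0)
    (hadd : ∀ a b, q a → q b → q (a + b)) (hsmul : ∀ (t : W.K) a, q a → q (t • a))
    (h : ∀ (i l : ℕ) (r r' : W.K) (x : W.H X) (y : W.H Y) (j : ℕ), x ∈ W.gr X i → y ∈ W.gr Y l →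
      E Φ X r x → E Φ Y r' y → i + l = 2 * j →
      (∃ n, 0 < n ∧ (r * r') ^ n = ((p : W.K) ^ j) ^ n) →
      W.map (fst X Y) x * W.map (snd X Y) y ≠ 0 →
      q (W.map (fst X Y) x * W.map (snd X Y) y)) {c : W.H (X.prod Y)} (hc : c ∈ TC Φ (X.prod Y)) :
    q c := by
  refine TC.ind (q := q) ?_ h0 hadd hc
  intro s j hs c hc
  obtain ⟨v, hv⟩ := exists_E_basis Φ X
  obtain ⟨w, hw⟩ := exists_E_basis Φ Y
  choose dv rv hv1 hv2 using hv
  choose dw rw' hw1 hw2 using hw
  -- the spanning set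
  set M : Set (W.H (X.prod Y)) :=
    Set.range fun a : Fin (Module.finrank W.K (W.H X)) × Fin (Module.finrank W.K (W.H Y)) =>
      W.map (fst X Y) (v a.1) * W.map (snd X Y) (w a.2) with hM
  have hspan : c ∈ Submodule.span W.K M := by
    refine W.kunneth_induction (p := fun c => c ∈ Submodule.span W.K M) ?_ ?_ c
    · intro a b ha hb
      exact Submodule.add_mem _ ha hb
    · intro i l a ha0 b hb0
      clear ha0 hb0
      have h1 : a ∈ Submodule.span W.K (Set.range v) := by rw [v.span_eq]; trivial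
      have h2 : b ∈ Submodule.span W.K (Set.range w) := by rw [w.span_eq]; trivial
      induction h1 using Submodule.span_induction with
      | zero => rw [map_zero, zero_mul]; exact Submodule.zero_mem _
      | add a a' _ _ ha ha' => rw [map_add, add_mul]; exact Submodule.add_mem _ ha ha'
      | smul t a _ ha => rw [map_smul, smul_mul_assoc]; exact Submodule.smul_mem _ _ ha
      | mem a ha =>
        obtain ⟨a, rfl⟩ := ha
        induction h2 using Submodule.span_induction with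
        | zero => rw [map_zero, mul_zero]; exact Submodule.zero_mem _
        | add b b' _ _ hb hb' => rw [map_add, mul_add]; exact Submodule.add_mem _ hb hb'
        | smul t b _ hb => rw [map_smul, mul_smul_comm]; exact Submodule.smul_mem _ _ hb
        | mem b hb =>
          obtain ⟨b, rfl⟩ := hb
          exact Submodule.subset_span ⟨(a, b), rfl⟩
  -- a common level
  have hE : ∀ a : Fin (Module.finrank W.K (W.H X)) × Fin (Module.finrank W.K (W.H Y)),
      E Φ (X.prod Y) (rv a.1 * rw' a.2) (W.map (fst X Y) (v a.1) * W.map (snd X Y) (w a.2)) :=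
    fun a => (hv2 a.1).ext (hw2 a.2)
  choose t ht hE using hE
  have hlev : ∃ T, 0 < T ∧ ∀ a, t a ∣ T :=
    ⟨∏ a, t a, Finset.prod_pos fun a _ => ht a, fun a => Finset.dvd_prod_of_mem _ (Finset.mem_univ a)⟩
  obtain ⟨T, hT, hT2⟩ := hlev
  have hc1 := genTate_mono Φ s T j hc
  have hMg : ∀ m ∈ M, ∃ ν : W.K, m ∈ (frob Φ (X.prod Y) (s * T)).maxGenEigenspace ν := by
    rintro _ ⟨a, rfl⟩
    obtain ⟨b, hb⟩ := hT2 a
    have := gen_level' (gen_level (hE a) b) s
    rw [← hb] at this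
    exact ⟨_, this⟩
  have hc2 := mem_span_gen hMg hspan hc1.1
  -- the homogeneous part
  have key : ∀ d ∈ Submodule.span W.K {m | m ∈ M ∧
      m ∈ (frob Φ (X.prod Y) (s * T)).maxGenEigenspace ((card Φ (X.prod Y) (s * T) : W.K) ^ j)},
      q (proj (W.isInternal (X.prod Y)) (2 * j) d) := by
    intro d hd
    induction hd using Submodule.span_induction with
    | zero => rw [map_zero]; exact h0
    | add a b _ _ ha hb => rw [map_add]; exact hadd _ _ ha hb
    | smul t a _ ha => rw [map_smul]; exact hsmul _ _ ha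
    | mem m hm =>
      obtain ⟨⟨a, rfl⟩, hm2⟩ := hm
      have hdeg : W.map (fst X Y) (v a.1) * W.map (snd X Y) (w a.2) ∈
          W.gr (X.prod Y) (dv a.1 + dw a.2) :=
        W.mul_mem (W.map_mem _ (hv1 _)) (W.map_mem _ (hw1 _))
      by_cases hd : dv a.1 + dw a.2 = 2 * j
      · have h3 := hdeg
        rw [hd] at h3
        simp only
        rw [proj_same _ h3]
        by_cases hne : W.map (fst X Y) (v a.1) * W.map (snd X Y) (w a.2) = 0
        · rw [hne]; exact h0
        · refine h _ _ _ _ _ _ j (hv1 a.1) (hw1 a.2) (hv2 a.1) (hw2 a.2) hd ?_ hne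
          have h4 : E Φ (X.prod Y) ((p : W.K) ^ j)
              (W.map (fst X Y) (v a.1) * W.map (snd X Y) (w a.2)) :=
            E.of_genTate (Nat.mul_pos hs hT) ⟨hm2, h3⟩
          exact E.uniq ((hv2 a.1).ext (hw2 a.2)) h4 hne
      · simp only
        rw [proj_ne _ hdeg hd]
        exact h0
  have h5 := key c hc2
  rwa [proj_same _ hc1.2] at h5

/-- **Transitivity.** -/
theorem trans [IsAlgClosed W.K] (S : Sys W) {Z' B : 𝒱.Obj} (h1 : TC Φ (Z'.prod B) ≤ S.C _)
    (h2 : ∀ s, 0 < s → genTate Φ (B.prod Y) s B.dim ≤ S.C _) (hcov : Covers Φ B Y) :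
    TC Φ (Z'.prod Y) ≤ S.C _ := by
  intro c hc
  refine TC_prod_ind (q := fun c => c ∈ S.C (Z'.prod Y)) ?_ ?_ ?_ ?_ hc
  · exact Submodule.zero_mem _
  · intro a b ha hb; exact Submodule.add_mem _ ha hb
  · intro t a ha; exact Submodule.smul_mem _ _ ha
  intro i l r r' u y j hu hy hEu hEy hil hn hne
  have hy0 : y ≠ 0 := by
    rintro rfl
    exact hne (by rw [map_zero, mul_zero])
  obtain ⟨x, hx, hx0, hEx⟩ := (hcov l r' (hEy.occurs hy hy0)).exists
  obtain ⟨l', r'', x', hl', hx', hEx', ⟨n', hn', hr'⟩, htr⟩ := hEx.dual hx hx0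
  refine comp_mem' S (x := x) (x' := x') ?_ ?_ htr
  · apply h1
    obtain ⟨n, hn, hr⟩ := hn
    exact ((hEu.ext hEx).congr hn hr).mem_TC
      (hil ▸ W.mul_mem (W.map_mem _ hu) (W.map_mem _ hx))
  · have hE : E Φ (B.prod Y) ((p : W.K) ^ B.dim) (W.map (fst B Y) x' * W.map (snd B Y) y) := by
      refine (hEx'.ext hEy).congr hn' ?_
      rw [← hr', mul_comm r' r'']
    obtain ⟨s, hs, h3⟩ := hE.genTate (by
      have := W.mul_mem (W.map_mem (fst B Y) hx') (W.map_mem (snd B Y) hy)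
      rwa [show l' + l = 2 * B.dim by omega] at this)
    exact h2 s hs h3

/-- Retracts. -/
lemma retract (S : Sys W) (f : X ⟶ Y) (g : Y ⟶ X) (h : f ≫ g = 𝟙 X) (hY : TC Φ Y ≤ S.C Y) :
    TC Φ X ≤ S.C X := by
  intro c hc
  have h1 : c = W.map f (W.map g c) := by rw [← W.map_comp, h, W.map_id]
  rw [h1]
  exact S.map f (hY (TC.map g hc))

/-- The second factor. -/
lemma factor (S : Sys W) (hn : (1 : W.H X) ≠ 0)
    (h : TC Φ (X.prod Y) ≤ S.C _) : TC Φ Y ≤ S.C Y := by
  intro c hc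
  obtain ⟨a, ha, ha2⟩ : ∃ a ∈ TC Φ X, W.tr X a ≠ 0 := by
    by_contra hcon
    push Not at hcon
    exact hn (TC.nondeg TC.one fun y hy => by rw [one_mul]; exact hcon y hy)
  have h1 : W.map (fst X Y) a * W.map (snd X Y) c ∈ S.C (X.prod Y) :=
    h (TC.mul (TC.map _ ha) (TC.map _ hc))
  have h2 := S.push (snd X Y) h1
  rw [W.push_mul, W.push_snd', smul_mul_assoc, one_mul] at h2
  have h3 := Submodule.smul_mem _ (W.tr X a)⁻¹ h2
  rwa [smul_smul, inv_mul_cancel₀ ha2, one_smul] at h3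

end Pool.Agent.X297.TR
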